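import Mathlib

/-! Project KS (owner helper488): algebras generated by anticommuting invertible elements. -/

set_option autoImplicit false

namespace Pool.Agent.W351.KS

/-- products of the generators -/
def el {n : ℕ} {A : Type} [Ring A] (g : Fin n → A) (l : List (Fin n)) : A := (l.map g).prod

/-- the parities -/
def par {n : ℕ} : List (Fin n) → Fin n → ZMod 2
  | [] => 0
  | k :: l => Pi.single k 1 + par l

/-- the signs -/
def sg (a : ZMod 2) : ℚ := if a = 0 then 1 else -1

theorem zm (a : ZMod 2) : a = 0 ∨ a = 1 := by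
  revert a; decide

theorem sg_add (a b : ZMod 2) : sg (a + b) = sg a * sg b := by
  have h2 : (1 + 1 : ZMod 2) = 0 := by decide
  have h1 : (1 : ZMod 2) ≠ 0 := by decide
  rcases zm a with rfl | rfl <;> rcases zm b with rfl | rfl <;> simp [sg, h1, h2]

theorem el_cons {n : ℕ} {A : Type} [Ring A] (g : Fin n → A) (k : Fin n) (l : List (Fin n)) :
    el g (k :: l) = g k * el g l := by simp [el]

theorem el_append {n : ℕ} {A : Type} [Ring A] (g : Fin n → A) (l l' : List (Fin n)) :
    el g (l ++ l') = el g l * el g l' := by simp [el]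

theorem par_append {n : ℕ} (l l' : List (Fin n)) : par (l ++ l') = par l + par l' := by
  induction l with
  | nil => simp [par]
  | cons k l ih => simp only [List.cons_append, par, ih, add_assoc]

theorem par_reverse {n : ℕ} (l : List (Fin n)) : par l.reverse = par l := by
  induction l with
  | nil => rfl
  | cons k l ih =>
    rw [List.reverse_cons, par_append, ih]
    simp only [par, add_zero]
    rw [add_comm]

theorem par_sum {n : ℕ} (l : List (Fin n)) : ∑ i, par l i = (l.length : ZMod 2) := by
  induction l with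
  | nil => simp [par]
  | cons k l ih =>
    simp only [par, Pi.add_apply, Finset.sum_add_distrib, ih, List.length_cons]
    rw [Finset.sum_pi_single', if_pos (Finset.mem_univ k)]
    push_cast
    ring

theorem par_notMem {n : ℕ} (k : Fin n) (l : List (Fin n)) (h : k ∉ l) : par l k = 0 := by
  induction l with
  | nil => rfl
  | cons j l ih =>
    have h1 : k ≠ j := fun h' => h (h' ▸ List.mem_cons_self)
    have h2 : k ∉ l := fun h' => h (List.mem_cons_of_mem _ h')
    simp only [par, Pi.add_apply, ih h2, Pi.single_eq_of_ne h1, add_zero]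

section
variable {n : ℕ} {A : Type} [Ring A] [Algebra ℚ A] {g : Fin n → A} {q : Fin n → ℚ}

theorem comm_el (hc : ∀ i j, i ≠ j → g i * g j = -(g j * g i)) (k : Fin n)
    (l : List (Fin n)) : ∃ r : ℚ, g k * el g l = r • (el g l * g k) := by
  induction l with
  | nil => exact ⟨1, by simp [el]⟩
  | cons j l ih =>
    obtain ⟨r, hr⟩ := ih
    by_cases h : k = j
    · subst h
      refine ⟨r, ?_⟩
      rw [el_cons]
      calc g k * (g k * el g l) = g k * (r • (el g l * g k)) := by rw [hr]
        _ = r • (g k * el g l * g k) := by rw [mul_smul_comm, mul_assoc]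
    · refine ⟨-r, ?_⟩
      rw [el_cons, ← mul_assoc, hc k j h, neg_mul, mul_assoc, hr, mul_smul_comm, neg_smul,
        mul_assoc]

theorem el_scalar (hsq : ∀ i, g i * g i = algebraMap ℚ A (q i))
    (hc : ∀ i j, i ≠ j → g i * g j = -(g j * g i)) : ∀ (m : ℕ) (l : List (Fin n)),
    l.length ≤ m → par l = 0 → ∃ r : ℚ, el g l = algebraMap ℚ A r := by
  intro m
  induction m with
  | zero =>
    intro l hl _
    have : l = [] := List.length_eq_zero_iff.1 (by omega)
    subst this
    exact ⟨1, by simp [el]⟩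
  | succ m ih =>
    intro l hl hp
    match l, hl, hp with
    | [], _, _ => exact ⟨1, by simp [el]⟩
    | k :: l', hl, hp =>
      have h2 : (1 + 1 : ZMod 2) = 0 := by decide
      have hk0 := congrFun hp k
      simp only [par, Pi.add_apply, Pi.single_eq_same, Pi.zero_apply] at hk0
      have hmem : k ∈ l' := by
        by_contra h
        rw [par_notMem k l' h, add_zero] at hk0
        exact absurd hk0 (by decide)
      obtain ⟨a, b, rfl⟩ := List.append_of_mem hmem
      obtain ⟨r, hr⟩ := comm_el hc k a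
      have hp2 : par (a ++ b) = 0 := by
        simp only [par, par_append] at hp
        rw [par_append]
        have h3 : (Pi.single k 1 : Fin n → ZMod 2) + Pi.single k 1 = 0 := by
          rw [← Pi.single_add, h2, Pi.single_zero]
        calc par a + par b = ((Pi.single k 1 : Fin n → ZMod 2) + Pi.single k 1) +
              (par a + par b) := by rw [h3, zero_add]
          _ = Pi.single k 1 + (par a + (Pi.single k 1 + par b)) := by abel
          _ = 0 := hp
      have hl2 : (a ++ b).length ≤ m := by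
        simp only [List.length_cons, List.length_append] at hl ⊢
        omega
      obtain ⟨r', hr'⟩ := ih (a ++ b) hl2 hp2
      refine ⟨r * q k * r', ?_⟩
      have e1 : el g (k :: (a ++ k :: b)) = (g k * el g a) * (g k * el g b) := by
        rw [el_cons, el_append, el_cons, mul_assoc]
      have e2 : el g a * g k * (g k * el g b) = q k • el g (a ++ b) := by
        rw [mul_assoc, ← mul_assoc (g k), hsq, ← Algebra.smul_def, mul_smul_comm, el_append]
      rw [e1, hr, smul_mul_assoc, e2, hr', smul_smul, Algebra.smul_def, ← map_mul]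

theorem X_comm (hc : ∀ i j, i ≠ j → g i * g j = -(g j * g i)) (i j k : Fin n) (hij : i ≠ j) :
    (g i * g j) * g k = sg ((Pi.single k 1 : Fin n → ZMod 2) i + (Pi.single k 1 : Fin n → ZMod 2) j)
      • (g k * (g i * g j)) := by
  by_cases h1 : k = i
  · subst h1
    rw [Pi.single_eq_same, Pi.single_eq_of_ne hij.symm, add_zero]
    have : sg 1 = -1 := by
      have h1 : (1 : ZMod 2) ≠ 0 := by decide
      simp [sg, h1]
    rw [this, mul_assoc, hc j k hij.symm, mul_neg, neg_smul, one_smul]
  · by_cases h2 : k = j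
    · subst h2
      rw [Pi.single_eq_same, Pi.single_eq_of_ne hij, zero_add]
      have : sg 1 = -1 := by
        have h1 : (1 : ZMod 2) ≠ 0 := by decide
        simp [sg, h1]
      rw [this, ← mul_assoc (g k), hc k i hij.symm, neg_mul, neg_smul, one_smul, neg_neg]
    · rw [Pi.single_eq_of_ne (Ne.symm h1), Pi.single_eq_of_ne (Ne.symm h2), add_zero]
      have : sg 0 = 1 := by simp [sg]
      rw [this, one_smul, mul_assoc, hc j k (Ne.symm h2), mul_neg, ← mul_assoc, hc i k (Ne.symm h1),
        neg_mul, neg_neg, mul_assoc]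

theorem conj_el (hsq : ∀ i, g i * g i = algebraMap ℚ A (q i))
    (hc : ∀ i j, i ≠ j → g i * g j = -(g j * g i)) (i j : Fin n) (hij : i ≠ j)
    (l : List (Fin n)) : (g i * g j) * el g l * (g j * g i) =
      (q i * q j * sg (par l i + par l j)) • el g l := by
  induction l with
  | nil =>
    have e1 : (g i * g j) * el g [] * (g j * g i) = algebraMap ℚ A (q i * q j) := by
      have : el g [] = 1 := by simp [el]
      rw [this, mul_one, mul_assoc, ← mul_assoc (g j), hsq, ← Algebra.smul_def, mul_smul_comm,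
        hsq, Algebra.smul_def, ← map_mul, mul_comm]
    rw [e1]
    simp [par, sg, el, Algebra.algebraMap_eq_smul_one]
  | cons k l ih =>
    rw [el_cons, ← mul_assoc (g i * g j) (g k) (el g l), X_comm hc i j k hij, smul_mul_assoc,
      smul_mul_assoc, mul_assoc (g k) (g i * g j) (el g l),
      mul_assoc (g k) (g i * g j * el g l) (g j * g i), ih, mul_smul_comm, smul_smul]
    congr 1
    simp only [par, Pi.add_apply]
    have : (Pi.single k 1 : Fin n → ZMod 2) i + par l i + ((Pi.single k 1 : Fin n → ZMod 2) j + par l j)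
        = ((Pi.single k 1 : Fin n → ZMod 2) i + (Pi.single k 1 : Fin n → ZMod 2) j) +
          (par l i + par l j) := by ring
    rw [this, sg_add ((Pi.single k 1 : Fin n → ZMod 2) i + (Pi.single k 1 : Fin n → ZMod 2) j)
      (par l i + par l j)]
    ring

/-- the part of parity `s` -/
def Am (g : Fin n → A) (s : Fin n → ZMod 2) : Submodule ℚ A :=
  Submodule.span ℚ {x | ∃ l, par l = s ∧ x = el g l}

theorem conj_Am (hsq : ∀ i, g i * g i = algebraMap ℚ A (q i))
    (hc : ∀ i j, i ≠ j → g i * g j = -(g j * g i)) (i j : Fin n) (hij : i ≠ j)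
    (s : Fin n → ZMod 2) (x : A) (hx : x ∈ Am g s) :
    (g i * g j) * x * (g j * g i) = (q i * q j * sg (s i + s j)) • x := by
  induction hx using Submodule.span_induction with
  | mem x h =>
    obtain ⟨l, rfl, rfl⟩ := h
    exact conj_el hsq hc i j hij l
  | zero => simp
  | add x y _ _ hx hy => rw [mul_add, add_mul, hx, hy, smul_add]
  | smul a x _ hx => rw [mul_smul_comm, smul_mul_assoc, hx, smul_comm]

theorem decomp (z : A) (hz : z ∈ Submodule.span ℚ {x | ∃ l : List (Fin n),
    (l.length : ZMod 2) = 0 ∧ x = el g l}) :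
    ∃ x : (Fin n → ZMod 2) → A, (∀ s, x s ∈ Am g s) ∧ (∀ s, ∑ i, s i ≠ 0 → x s = 0) ∧
      z = ∑ s, x s := by
  classical
  induction hz using Submodule.span_induction with
  | mem x h =>
    obtain ⟨l, hl, rfl⟩ := h
    refine ⟨Pi.single (par l) (el g l), fun s => ?_, fun s hs => ?_, ?_⟩
    · by_cases h : s = par l
      · subst h
        rw [Pi.single_eq_same]
        exact Submodule.subset_span ⟨l, rfl, rfl⟩
      · rw [Pi.single_eq_of_ne h]
        exact Submodule.zero_mem _
    · by_cases h : s = par l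
      · subst h
        exact absurd ((par_sum l).trans hl) hs
      · rw [Pi.single_eq_of_ne h]
    · rw [Finset.sum_pi_single', if_pos (Finset.mem_univ _)]
  | zero => exact ⟨0, fun s => Submodule.zero_mem _, fun _ _ => rfl, by simp⟩
  | add x y _ _ hx hy =>
    obtain ⟨a, a1, a2, a3⟩ := hx
    obtain ⟨b, b1, b2, b3⟩ := hy
    refine ⟨a + b, fun s => Submodule.add_mem _ (a1 s) (b1 s), fun s hs => ?_, ?_⟩
    · rw [Pi.add_apply, a2 s hs, b2 s hs, add_zero]
    · rw [a3, b3, ← Finset.sum_add_distrib]
      rfl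
  | smul c x _ hx =>
    obtain ⟨a, a1, a2, a3⟩ := hx
    refine ⟨c • a, fun s => Submodule.smul_mem _ _ (a1 s), fun s hs => ?_, ?_⟩
    · rw [Pi.smul_apply, a2 s hs, smul_zero]
    · rw [a3, Finset.smul_sum]
      rfl

theorem scal (hsq : ∀ i, g i * g i = algebraMap ℚ A (q i))
    (hc : ∀ i j, i ≠ j → g i * g j = -(g j * g i)) (l : List (Fin n)) (x : A)
    (hx : x ∈ Am g (par l)) : ∃ r : ℚ, x * el g l.reverse = algebraMap ℚ A r := by
  induction hx using Submodule.span_induction with
  | mem x h =>
    obtain ⟨l', h', rfl⟩ := h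
    rw [← el_append]
    refine el_scalar hsq hc _ _ le_rfl ?_
    rw [par_append, par_reverse, h']
    ext i
    rw [Pi.add_apply, Pi.zero_apply]
    rcases zm (par l i) with h | h <;> rw [h]
    · rw [add_zero]
    · decide
  | zero => exact ⟨0, by simp⟩
  | add x y _ _ hx hy =>
    obtain ⟨a, ha⟩ := hx
    obtain ⟨b, hb⟩ := hy
    exact ⟨a + b, by rw [add_mul, ha, hb, map_add]⟩
  | smul c x _ hx =>
    obtain ⟨a, ha⟩ := hx
    exact ⟨c * a, by rw [smul_mul_assoc, ha, Algebra.smul_def, ← map_mul]⟩

theorem inv_el (hq : ∀ i, q i ≠ 0) (hsq : ∀ i, g i * g i = algebraMap ℚ A (q i))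
    (l : List (Fin n)) : ∃ r : ℚ, r ≠ 0 ∧ el g l.reverse * el g l = algebraMap ℚ A r := by
  induction l with
  | nil => exact ⟨1, one_ne_zero, by simp [el]⟩
  | cons k l ih =>
    obtain ⟨r, hr, h⟩ := ih
    refine ⟨q k * r, mul_ne_zero (hq k) hr, ?_⟩
    rw [List.reverse_cons, el_append, el_cons, el_cons]
    have : el g ([] : List (Fin n)) = 1 := by simp [el]
    rw [this, mul_one, mul_assoc, ← mul_assoc (g k), hsq, ← Algebra.smul_def, mul_smul_comm, h,
      Algebra.smul_def, ← map_mul]

theorem comb (hn : Odd n) (s s' : Fin n → ZMod 2) (h0 : ∑ i, s i = 0) (h0' : ∑ i, s' i = 0)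
    (h : s ≠ s') : ∃ i j, i ≠ j ∧ s i + s j ≠ s' i + s' j := by
  by_contra hno
  push Not at hno
  apply h
  obtain ⟨m, hm⟩ := hn
  have hn0 : 0 < n := by omega
  have key : ∀ i, s i - s' i = s ⟨0, hn0⟩ - s' ⟨0, hn0⟩ := by
    intro i
    by_cases hi : i = ⟨0, hn0⟩
    · rw [hi]
    · have h1 := hno i ⟨0, hn0⟩ hi
      have h3 : s i - s' i = -(s ⟨0, hn0⟩ - s' ⟨0, hn0⟩) := by linear_combination h1
      rw [h3]
      rcases zm (s ⟨0, hn0⟩ - s' ⟨0, hn0⟩) with h2 | h2 <;> rw [h2]
      · rw [neg_zero]
      · decide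
  have h1 : ∑ i, (s i - s' i) = 0 := by rw [Finset.sum_sub_distrib, h0, h0', sub_self]
  rw [Finset.sum_congr rfl fun i _ => key i, Finset.sum_const, Finset.card_univ, Fintype.card_fin,
    nsmul_eq_mul] at h1
  have h2 : (n : ZMod 2) = 1 := by
    rw [hm]
    push_cast
    have : (2 : ZMod 2) = 0 := by decide
    rw [this, zero_mul, zero_add]
  rw [h2, one_mul] at h1
  ext i
  have := key i
  rw [h1] at this
  exact sub_eq_zero.1 this

theorem key (hn : Odd n) (hq : ∀ i, q i ≠ 0) (hsq : ∀ i, g i * g i = algebraMap ℚ A (q i))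
    (hc : ∀ i j, i ≠ j → g i * g j = -(g j * g i)) (E J : Submodule ℚ A)
    (hE2 : ∀ i j, g i * g j ∈ E)
    (hEl : ∀ l : List (Fin n), (l.length : ZMod 2) = 0 → el g l ∈ E)
    (hJl : ∀ a ∈ E, ∀ x ∈ J, a * x ∈ J) (hJr : ∀ a ∈ E, ∀ x ∈ J, x * a ∈ J)
    (F : Finset (Fin n → ZMod 2)) : (∀ s ∈ F, ∑ i, s i = 0) →
    ∀ x : (Fin n → ZMod 2) → A, (∀ s, x s ∈ Am g s) → ∑ s ∈ F, x s ∈ J → ∑ s ∈ F, x s ≠ 0 →
      (1 : A) ∈ J := by
  classical
  induction F using Finset.strongInduction with
  | H F ih =>
  intro hF x hx hJ h0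
  by_cases hne : ∃ s ∈ F, ∃ s' ∈ F, s ≠ s'
  · obtain ⟨s, hs, s', hs', hss⟩ := hne
    obtain ⟨i, j, hij, hd⟩ := comb hn s s' (hF s hs) (hF s' hs') hss
    have hsum := Finset.sum_filter_add_sum_filter_not F (fun t => t i + t j = 0) x
    have hq2 : q i * q j ≠ 0 := mul_ne_zero (hq i) (hq j)
    have hconj : (g i * g j) * (∑ s ∈ F, x s) * (g j * g i) =
        (q i * q j) • (∑ s ∈ F with s i + s j = 0, x s) -
        (q i * q j) • (∑ s ∈ F with ¬ s i + s j = 0, x s) := by
      rw [← hsum, mul_add, add_mul, sub_eq_add_neg]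
      congr 1
      · rw [Finset.mul_sum, Finset.sum_mul, Finset.smul_sum]
        refine Finset.sum_congr rfl fun t ht => ?_
        rw [conj_Am hsq hc i j hij t _ (hx t), (Finset.mem_filter.1 ht).2]
        have : sg 0 = 1 := by simp [sg]
        rw [this, mul_one]
      · rw [Finset.mul_sum, Finset.sum_mul, Finset.smul_sum, ← Finset.sum_neg_distrib]
        refine Finset.sum_congr rfl fun t ht => ?_
        rw [conj_Am hsq hc i j hij t _ (hx t)]
        have h1 : t i + t j = 1 := (zm _).resolve_left (Finset.mem_filter.1 ht).2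
        rw [h1]
        have : sg 1 = -1 := by
          have h1 : (1 : ZMod 2) ≠ 0 := by decide
          simp [sg, h1]
        rw [this, mul_neg, mul_one, neg_smul]
    have hXJ : (g i * g j) * (∑ s ∈ F, x s) * (g j * g i) ∈ J :=
      hJr _ (hE2 j i) _ (hJl _ (hE2 i j) _ hJ)
    have hz : (q i * q j) • (∑ s ∈ F, x s) ∈ J := J.smul_mem _ hJ
    have h1 : ∑ s ∈ F with s i + s j = 0, x s ∈ J := by
      have h2 : (2 * (q i * q j))⁻¹ • ((q i * q j) • (∑ s ∈ F, x s) +
          (g i * g j) * (∑ s ∈ F, x s) * (g j * g i)) ∈ J := J.smul_mem _ (J.add_mem hz hXJ)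
      rw [hconj, ← hsum] at h2
      have h3 : (2 * (q i * q j))⁻¹ • ((q i * q j) • ((∑ s ∈ F with s i + s j = 0, x s) +
          ∑ s ∈ F with ¬ s i + s j = 0, x s) + ((q i * q j) • (∑ s ∈ F with s i + s j = 0, x s) -
          (q i * q j) • (∑ s ∈ F with ¬ s i + s j = 0, x s))) =
          ∑ s ∈ F with s i + s j = 0, x s := by
        rw [smul_add (q i * q j)]
        have : (q i * q j) • (∑ s ∈ F with s i + s j = 0, x s) +
            (q i * q j) • (∑ s ∈ F with ¬ s i + s j = 0, x s) +
            ((q i * q j) • (∑ s ∈ F with s i + s j = 0, x s) -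
            (q i * q j) • (∑ s ∈ F with ¬ s i + s j = 0, x s)) =
            (2 * (q i * q j)) • (∑ s ∈ F with s i + s j = 0, x s) := by
          rw [two_mul, add_smul]
          abel
        rw [this, smul_smul, inv_mul_cancel₀ (mul_ne_zero two_ne_zero hq2), one_smul]
      rwa [h3] at h2
    have h1' : ∑ s ∈ F with ¬ s i + s j = 0, x s ∈ J := by
      have h2 : (∑ s ∈ F, x s) - ∑ s ∈ F with s i + s j = 0, x s ∈ J := J.sub_mem hJ h1
      rw [← hsum, add_sub_cancel_left] at h2
      exact h2
    by_cases h3 : ∑ s ∈ F with s i + s j = 0, x s = 0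
    · have h4 : ∑ s ∈ F with ¬ s i + s j = 0, x s ≠ 0 := by
        intro h5
        apply h0
        rw [← hsum, h3, h5, add_zero]
      refine ih _ ?_ (fun s hs => hF s (Finset.mem_filter.1 hs).1) x hx h1' h4
      refine Finset.filter_ssubset.2 ?_
      by_cases h6 : s i + s j = 0
      · exact ⟨s, hs, fun h => h h6⟩
      · refine ⟨s', hs', fun h => h ?_⟩
        rcases zm (s' i + s' j) with h7 | h7
        · exact h7
        · exact absurd (((zm _).resolve_left h6).trans h7.symm) hd
    · refine ih _ ?_ (fun s hs => hF s (Finset.mem_filter.1 hs).1) x hx h1 h3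
      refine Finset.filter_ssubset.2 ?_
      by_cases h6 : s i + s j = 0
      · exact ⟨s', hs', fun h => hd (h6.trans h.symm)⟩
      · exact ⟨s, hs, h6⟩
  · push Not at hne
    have hFne : F.Nonempty := by
      rw [Finset.nonempty_iff_ne_empty]
      rintro rfl
      exact h0 Finset.sum_empty
    obtain ⟨s, hs⟩ := hFne
    have hFs : F = {s} := by
      ext t
      rw [Finset.mem_singleton]
      exact ⟨fun ht => hne t ht s hs, fun ht => ht ▸ hs⟩
    rw [hFs, Finset.sum_singleton] at hJ h0
    have hl : ∃ l : List (Fin n), par l = s := by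
      by_contra hno
      push Not at hno
      apply h0
      have h1 := hx s
      have h2 : {x | ∃ l : List (Fin n), par l = s ∧ x = el g l} = ∅ := by
        ext y
        simp only [Set.mem_ofPred_eq, Set.mem_empty_iff_false, iff_false]
        rintro ⟨l, hl, -⟩
        exact hno l hl
      rw [Am, h2, Submodule.span_empty, Submodule.mem_bot] at h1
      exact h1
    obtain ⟨l, rfl⟩ := hl
    obtain ⟨r, hr⟩ := scal hsq hc l (x (par l)) (hx _)
    obtain ⟨r', hr', h'⟩ := inv_el hq hsq l
    have hlen : (l.reverse.length : ZMod 2) = 0 := by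
      rw [List.length_reverse, ← par_sum]
      exact hF _ hs
    have h1 : x (par l) * el g l.reverse ∈ J := hJr _ (hEl _ hlen) _ hJ
    have hr0 : r ≠ 0 := by
      rintro rfl
      apply h0
      have h2 : x (par l) * (el g l.reverse * el g l) = 0 := by
        rw [← mul_assoc, hr, map_zero, zero_mul]
      rw [h', ← Algebra.commutes, ← Algebra.smul_def] at h2
      have h3 : r'⁻¹ • (r' • x (par l)) = 0 := by rw [h2, smul_zero]
      rwa [smul_smul, inv_mul_cancel₀ hr', one_smul] at h3
    rw [hr] at h1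
    have h2 := J.smul_mem r⁻¹ h1
    rwa [Algebra.smul_def, ← map_mul, inv_mul_cancel₀ hr0, map_one] at h2

end

end Pool.Agent.W351.KS
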