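import Pool.Agent.W488.KS.Stm
import Pool.Agent.W351.KS.SimAbs

/-! Project KS (owner helper488): the even Clifford algebra is simple in odd dimensions. -/

set_option autoImplicit false

namespace Pool.Agent.W351.KS

open Pool.Agent.W488.KS CliffordAlgebra

theorem sim : S_sim := by
  intro n Q hQ hdet hn
  set B : LinearMap.BilinForm ℚ (Fin n → ℚ) := Matrix.toBilin' Q with hB
  have hBs : ∀ x y, B x y = B y x := by
    intro x y
    rw [hB, Matrix.toBilin'_apply', Matrix.toBilin'_apply', Matrix.dotProduct_mulVec,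
      ← Matrix.mulVec_transpose, hQ, dotProduct_comm]
  have hBsymm : LinearMap.IsSymm B := ⟨fun x y => by simpa using hBs x y⟩
  obtain ⟨v, hv⟩ := LinearMap.BilinForm.exists_orthogonal_basis hBsymm
  have hv' : ∀ i j, i ≠ j → B (v i) (v j) = 0 := fun i j hij => hv hij
  have hQf : ∀ x, qf Q x = B x x := fun x => rfl
  have hq : ∀ i, B (v i) (v i) ≠ 0 := by
    intro i h0
    have h1 : ∀ y, B (v i) y = 0 := by
      intro y
      have h2 : B (v i) = 0 := by
        refine v.ext fun j => ?_
        by_cases hij : i = j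
        · subst hij
          rw [h0, LinearMap.zero_apply]
        · rw [hv' i j hij, LinearMap.zero_apply]
      rw [h2, LinearMap.zero_apply]
    have h3 : Matrix.vecMul (v i) Q = 0 := by
      ext k
      have h4 := h1 (Pi.single k 1)
      rw [hB, Matrix.toBilin'_apply', Matrix.dotProduct_mulVec] at h4
      simpa using h4
    exact v.ne_zero i (Matrix.eq_zero_of_vecMul_eq_zero hdet h3)
  have hodd : Odd (Module.finrank ℚ (Fin n → ℚ)) := by
    rw [Module.finrank_fin_fun]
    exact hn
  set g : Fin (Module.finrank ℚ (Fin n → ℚ)) → CliffordAlgebra (qf Q) := fun i => ι (qf Q) (v i)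
    with hg
  have hsq : ∀ i, g i * g i = algebraMap ℚ _ (B (v i) (v i)) := fun i => by
    rw [hg]
    exact ι_sq_scalar (qf Q) (v i)
  have hc : ∀ i j, i ≠ j → g i * g j = -(g j * g i) := by
    intro i j hij
    rw [hg]
    refine ι_mul_ι_comm_of_isOrtho ?_
    rw [QuadraticMap.isOrtho_def, hQf, hQf, hQf]
    simp only [map_add, LinearMap.add_apply, hv' i j hij, hv' j i hij.symm, add_zero, zero_add]
  have hE2 : ∀ i j, g i * g j ∈ evenOdd (qf Q) 0 := fun i j =>
    ι_mul_ι_mem_evenOdd_zero (qf Q) (v i) (v j)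
  have hEl' : ∀ l : List (Fin (Module.finrank ℚ (Fin n → ℚ))),
      el g l ∈ evenOdd (qf Q) (l.length : ZMod 2) := by
    intro l
    induction l with
    | nil =>
      have : el g ([] : List (Fin (Module.finrank ℚ (Fin n → ℚ)))) = 1 := by simp [el]
      rw [this]
      exact SetLike.one_mem_graded (evenOdd (qf Q))
    | cons k l ih =>
      rw [el_cons, List.length_cons]
      have h1 : ((l.length + 1 : ℕ) : ZMod 2) = 1 + (l.length : ZMod 2) := by
        push_cast
        ring
      rw [h1]
      exact SetLike.mul_mem_graded (ι_mem_evenOdd_one (qf Q) (v k)) ih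
  have hEl : ∀ l : List (Fin (Module.finrank ℚ (Fin n → ℚ))), (l.length : ZMod 2) = 0 →
      el g l ∈ evenOdd (qf Q) 0 := fun l hl => hl ▸ hEl' l
  have hspan : ∀ z ∈ evenOdd (qf Q) 0, z ∈ Submodule.span ℚ
      {x | ∃ l : List (Fin (Module.finrank ℚ (Fin n → ℚ))),
        (l.length : ZMod 2) = 0 ∧ x = el g l} := by
    intro z hz
    induction z, hz using CliffordAlgebra.even_induction with
    | algebraMap r =>
      rw [Algebra.algebraMap_eq_smul_one]
      refine Submodule.smul_mem _ _ (Submodule.subset_span ⟨[], ?_, ?_⟩)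
      · simp
      · simp [el]
    | add x y _ _ hx hy => exact Submodule.add_mem _ hx hy
    | ι_mul_ι_mul m₁ m₂ x _ hx =>
      have hstep : ∀ i j, ∀ y ∈ Submodule.span ℚ
          {x | ∃ l : List (Fin (Module.finrank ℚ (Fin n → ℚ))),
            (l.length : ZMod 2) = 0 ∧ x = el g l}, g i * g j * y ∈ Submodule.span ℚ
          {x | ∃ l : List (Fin (Module.finrank ℚ (Fin n → ℚ))),
            (l.length : ZMod 2) = 0 ∧ x = el g l} := by
        intro i j y hy
        induction hy using Submodule.span_induction with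
        | mem y h =>
          obtain ⟨l, hl, rfl⟩ := h
          refine Submodule.subset_span ⟨i :: j :: l, ?_, ?_⟩
          · rw [List.length_cons, List.length_cons]
            push_cast
            rw [hl]
            decide
          · rw [el_cons, el_cons, mul_assoc]
        | zero => rw [mul_zero]; exact Submodule.zero_mem _
        | add y z _ _ hy hz => rw [mul_add]; exact Submodule.add_mem _ hy hz
        | smul c y _ hy => rw [mul_smul_comm]; exact Submodule.smul_mem _ _ hy
      have e1 : ι (qf Q) m₁ = ∑ i, v.repr m₁ i • g i := by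
        conv_lhs => rw [← v.sum_repr m₁]
        rw [map_sum]
        exact Finset.sum_congr rfl fun i _ => map_smul _ _ _
      have e2 : ι (qf Q) m₂ = ∑ i, v.repr m₂ i • g i := by
        conv_lhs => rw [← v.sum_repr m₂]
        rw [map_sum]
        exact Finset.sum_congr rfl fun i _ => map_smul _ _ _
      rw [e1, e2, Finset.sum_mul_sum, Finset.sum_mul]
      refine Submodule.sum_mem _ fun i _ => ?_
      rw [Finset.sum_mul]
      refine Submodule.sum_mem _ fun j _ => ?_
      rw [smul_mul_smul_comm, smul_mul_assoc]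
      exact Submodule.smul_mem _ _ (hstep i j x hx)
  have : Nontrivial (CliffordAlgebra (qf Q)) := inferInstance
  have : Nontrivial (CliffordAlgebra.even (qf Q)) := inferInstance
  refine IsSimpleRing.of_eq_bot_or_eq_top fun I => ?_
  by_cases hI : I = ⊥
  · exact Or.inl hI
  · right
    have hz : ∃ z : CliffordAlgebra.even (qf Q), z ∈ I ∧ z ≠ 0 := by
      by_contra hno
      push Not at hno
      apply hI
      refine TwoSidedIdeal.ext fun z => ?_
      rw [TwoSidedIdeal.mem_bot]
      exact ⟨hno z, fun h => h ▸ I.zero_mem⟩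
    obtain ⟨z, hzI, hz0⟩ := hz
    let J : Submodule ℚ (CliffordAlgebra (qf Q)) :=
      { carrier := {x | ∃ h : x ∈ CliffordAlgebra.even (qf Q), (⟨x, h⟩ : CliffordAlgebra.even (qf Q)) ∈ I}
        add_mem' := by
          rintro a b ⟨ha, ha'⟩ ⟨hb, hb'⟩
          exact ⟨Subalgebra.add_mem _ ha hb, I.add_mem ha' hb'⟩
        zero_mem' := ⟨Subalgebra.zero_mem _, I.zero_mem⟩
        smul_mem' := by
          rintro c a ⟨ha, ha'⟩
          refine ⟨Subalgebra.smul_mem _ ha c, ?_⟩
          have h1 := I.mul_mem_left (algebraMap ℚ (CliffordAlgebra.even (qf Q)) c) _ ha'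
          rw [← Algebra.smul_def] at h1
          exact h1 }
    have hJl : ∀ a ∈ evenOdd (qf Q) 0, ∀ x ∈ J, a * x ∈ J := by
      rintro a ha x ⟨hx, hx'⟩
      exact ⟨Subalgebra.mul_mem _ (show a ∈ CliffordAlgebra.even (qf Q) from ha) hx,
        I.mul_mem_left ⟨a, ha⟩ _ hx'⟩
    have hJr : ∀ a ∈ evenOdd (qf Q) 0, ∀ x ∈ J, x * a ∈ J := by
      rintro a ha x ⟨hx, hx'⟩
      exact ⟨Subalgebra.mul_mem _ hx (show a ∈ CliffordAlgebra.even (qf Q) from ha),
        I.mul_mem_right _ ⟨a, ha⟩ hx'⟩
    obtain ⟨x, hx1, hx2, hx3⟩ := decomp (z : CliffordAlgebra (qf Q)) (hspan z z.2)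
    have hfil : (z : CliffordAlgebra (qf Q)) =
        ∑ s with ∑ i, s i = 0, x s := by
      rw [hx3]
      symm
      refine Finset.sum_filter_of_ne fun s _ hs => ?_
      by_contra h
      exact hs (hx2 s h)
    have h1 : (1 : CliffordAlgebra (qf Q)) ∈ J := by
      refine key hodd hq hsq hc (evenOdd (qf Q) 0) J hE2 hEl hJl hJr
        (Finset.univ.filter fun s => ∑ i, s i = 0) (fun s hs => (Finset.mem_filter.1 hs).2) x hx1
        ?_ ?_
      · rw [← hfil]
        exact ⟨z.2, hzI⟩
      · rw [← hfil]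
        exact fun h => hz0 (Subtype.ext h)
    obtain ⟨h2, h3⟩ := h1
    exact (TwoSidedIdeal.one_mem_iff I).1 h3

end Pool.Agent.W351.KS
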